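import Pool.Agent.C4K.StLin

/-!
# Squad C4K: module LI2 (Chernoff for sums over the classes, one class fixed)
-/

set_option autoImplicit false

namespace Pool.Agent.C4K.H6

open Finset Cl
open scoped Classical

theorem qq_prob {W : Type} {p : ℝ} (h0 : 0 ≤ p) (h1 : p ≤ 1) :
    LLLA.IsProb (W := W) (α := fun _ => Bool) (qq p) := by
  refine ⟨fun w b => ?_, fun w => ?_⟩
  · unfold qq
    split_ifs <;> linarith
  · simp [qq]

/-- LI2 -/
theorem li2 : LI2Stmt := by
  intro V _ n C T p hp0 hp1 F b X hb hF hX c om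
  have hq : ∀ c : Fin n, LLLA.IsProb (W := (C c).Wk T) (α := fun _ => Bool) (qq p) := fun c =>
    qq_prob hp0 hp1
  have hP := LLLA.cwt_prob (K := fun c => (C c).Wk T) (β := fun _ => Bool) (q := fun _ => qq p) hq
  -- the expectations
  have hE : ∀ c' : Fin n, LLLA.Ex (W := Fin n) (α := fun c => (C c).Wk T → Bool)
      (LLLA.cwt (K := fun c => (C c).Wk T) (β := fun _ => Bool) fun _ => qq p)
      (fun et => b⁻¹ * F c' (et c')) = b⁻¹ * (C c').E T p (F c') := by
    intro c'
    rw [LLLA.Ex_const_mul]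
    congr 1
    exact LLLA.Ex_class (K := fun c => (C c).Wk T) (β := fun _ => Bool) (q := fun _ => qq p) hq c'
      (F c')
  have hE0 : ∀ c' : Fin n, 0 ≤ (C c').E T p (F c') := fun c' =>
    LLLA.Ex_nonneg (hq c') fun om => (hF c' om).1
  have hI : LLLA.IndSum (W := Fin n) (α := fun c => (C c).Wk T → Bool)
      (LLLA.cwt (K := fun c => (C c).Wk T) (β := fun _ => Bool) fun _ => qq p)
      (univ.erase c) (fun c' => {c'}) (fun c' et => b⁻¹ * F c' (et c')) := by
    refine ⟨hP, ?_, ?_, ?_, ?_⟩
    · intro i _ j _ hij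
      exact Finset.disjoint_singleton.2 hij
    · intro i _ ω η h
      have := h i (Finset.mem_singleton_self i)
      simp only [this]
    · intro i _ ω
      exact mul_nonneg (inv_nonneg.2 hb.le) (hF i _).1
    · intro i _ ω
      rw [inv_mul_le_iff₀ hb, mul_one]
      exact (hF i _).2
  have hX0 : 0 ≤ X := by
    refine le_trans ?_ hX
    exact mul_nonneg (by norm_num) (Finset.sum_nonneg fun c' _ => hE0 c')
  have hμ : ∑ c' ∈ univ.erase c, LLLA.Ex (W := Fin n) (α := fun c => (C c).Wk T → Bool)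
      (LLLA.cwt (K := fun c => (C c).Wk T) (β := fun _ => Bool) fun _ => qq p)
      (fun et => b⁻¹ * F c' (et c')) ≤ X / b / 7 := by
    calc _ = ∑ c' ∈ univ.erase c, b⁻¹ * (C c').E T p (F c') :=
          Finset.sum_congr rfl fun c' _ => hE c'
      _ ≤ ∑ c', b⁻¹ * (C c').E T p (F c') :=
          Finset.sum_le_sum_of_subset_of_nonneg (Finset.erase_subset _ _)
            fun c' _ _ => mul_nonneg (inv_nonneg.2 hb.le) (hE0 c')
      _ = b⁻¹ * ∑ c', (C c').E T p (F c') := by rw [Finset.mul_sum]
      _ ≤ b⁻¹ * (X / 7) := by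
          apply mul_le_mul_of_nonneg_left _ (inv_nonneg.2 hb.le)
          linarith
      _ = X / b / 7 := by ring
  have key := hI.upper (lam := 2) (a := X / b) (by norm_num) hμ
  have hsub : PC C T p {et | X + b < ∑ c', F c' (fixc c om et c')} ≤
      LLLA.Pr (W := Fin n) (α := fun c => (C c).Wk T → Bool)
        (LLLA.cwt (K := fun c => (C c).Wk T) (β := fun _ => Bool) fun _ => qq p)
        {et | X / b ≤ ∑ c' ∈ univ.erase c, b⁻¹ * F c' (et c')} := by
    unfold PC
    apply LLLA.Pr_mono hP
    intro et het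
    have h1 : X + b < ∑ c', F c' (fixc c om et c') := het
    show X / b ≤ ∑ c' ∈ univ.erase c, b⁻¹ * F c' (et c')
    rw [← Finset.add_sum_erase _ _ (Finset.mem_univ c)] at h1
    have h2 : ∑ c' ∈ univ.erase c, F c' (fixc c om et c') =
        ∑ c' ∈ univ.erase c, F c' (et c') := by
      refine Finset.sum_congr rfl fun c' hc' => ?_
      have h3 : fixc c om et c' = et c' := by
        unfold fixc LLLA.mix
        rw [if_neg]
        simpa using Finset.ne_of_mem_erase hc'
      rw [h3]
    rw [h2] at h1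
    have h4 := (hF c (fixc c om et c)).2
    rw [← Finset.mul_sum, div_eq_mul_inv, mul_comm]
    apply mul_le_mul_of_nonneg_left _ (inv_nonneg.2 hb.le)
    linarith
  refine hsub.trans (key.trans (Real.exp_le_exp.2 ?_))
  have he : Real.exp 2 ≤ 8 := by
    have h1 : Real.exp 2 = Real.exp 1 * Real.exp 1 := by
      rw [← Real.exp_add]
      norm_num
    have h2 := Real.exp_one_lt_d9
    have h3 := Real.exp_pos 1
    rw [h1]
    nlinarith
  have h5 : 0 ≤ X / b := div_nonneg hX0 hb.le
  nlinarith

end Pool.Agent.C4K.H6
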